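import Pool.Agent.E8helper29.PC.Main

/-!
# Far range one sided forms of the pair correlation conjecture, with an exponentially small error

No hypothesis is assumed.  `pairs T S` is the number of ordered pairs of nontrivial zeros of zeta
with ordinates `γ, γ'` in `(0, T]`, counted with multiplicity, for which
`(γ - γ') log T / 2π` lies in `S`.  The conjecture `PCC` is that
`pairs T [α, β] ~ (T log T / 2π) ∫_α^β F` for all `0 < α < β`.

It is equivalent to each of the following one sided statements.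
* For all large `y` the number of pairs with `0 < (γ - γ') log T / 2π ≤ y` is asymptotically at
  least the predicted one, up to an error `C exp (- c y)`.  Nothing is assumed about the pairs with
  small differences, about the multiple zeros and about the zeros off the critical line.
* Almost all zeros are on the critical line and for all large `y` the number of all pairs with
  `|γ - γ'| log T / 2π ≤ y` is asymptotically at least (or: at most) the predicted one, up to an
  error `C exp (- c y)`.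

Idea of the proof.  The number variance of the ordinates, which is known unconditionally with the
error `O(1)`, bounds the average over `y ≤ a` of the number of pairs within distance `y` from above
by `a + O(log a / a)`; the first condition thus leaves no room for multiple zeros and for zeros off
the line.  Then the form factor of the ordinates is known unconditionally for `|α| < 2/3`, and a
function which is bounded below by `- C exp (- c |x|)` and has no low frequencies vanishes.
-/

open Filter Topology Complex Asymptotics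

namespace Pool.Agent.Results.MP_8958e8_nt.FarRangeH29

/-- the nontrivial zeros of zeta with ordinate in `(0, T]` -/
def zeros (T : ℝ) : Set ℂ :=
  {s : ℂ | riemannZeta s = 0 ∧ 0 < s.re ∧ s.re < 1 ∧ 0 < s.im ∧ s.im ≤ T}

/-- the multiplicity of a zero -/
noncomputable def mult (s : ℂ) : ℕ := analyticOrderNatAt riemannZeta s

/-- the number of ordered pairs of zeros in `zeros T`, counted with multiplicity, with difference of
the ordinates times `log T / 2π` in `S` -/
noncomputable def pairs (T : ℝ) (S : Set ℝ) : ℕ :=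
  ∑ᶠ p ∈ {p : ℂ × ℂ | p.1 ∈ zeros T ∧ p.2 ∈ zeros T ∧
    (p.1.im - p.2.im) * Real.log T / (2 * Real.pi) ∈ S}, mult p.1 * mult p.2

/-- the pair correlation function -/
noncomputable def F (u : ℝ) : ℝ := 1 - (Real.sin (Real.pi * u) / (Real.pi * u)) ^ 2

/-- the normalisation `T log T / 2π` -/
noncomputable def X (T : ℝ) : ℝ := T * Real.log T / (2 * Real.pi)

/-- the number of zeros in `zeros T`, with multiplicity -/
noncomputable def Nall (T : ℝ) : ℕ := ∑ᶠ s ∈ zeros T, mult s

/-- the number of zeros in `zeros T` on the critical line, with multiplicity -/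
noncomputable def Ncrit (T : ℝ) : ℕ := ∑ᶠ s ∈ {s : ℂ | s ∈ zeros T ∧ s.re = 1 / 2}, mult s

/-- the number of simple zeros in `zeros T` on the critical line -/
noncomputable def Nsimple (T : ℝ) : ℕ := {s : ℂ | s ∈ zeros T ∧ s.re = 1 / 2 ∧ mult s = 1}.ncard

/-- Montgomery's pair correlation conjecture, gap form -/
def PCC : Prop := ∀ α β : ℝ, 0 < α → α < β →
  (fun T => (pairs T (Set.Icc α β) : ℝ)) ~[atTop] fun T => X T * ∫ u in α..β, F u

/-- almost all zeros are on the critical line -/
def AlmostAllCritical : Prop := Tendsto (fun T => (Ncrit T : ℝ) / Nall T) atTop (𝓝 1)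

/-- almost all zeros are simple and on the critical line -/
def AlmostAllSimple : Prop := Tendsto (fun T => (Nsimple T : ℝ) / Nall T) atTop (𝓝 1)

/-- the lower half for pairs with different ordinates, for large distances, up to an exponentially
small error -/
def LowerHalfFar : Prop := ∃ B C c : ℝ, 0 < c ∧ ∀ y : ℝ, B ≤ y → ∀ ε : ℝ, 0 < ε → ∀ᶠ T in atTop,
  (∫ u in (0 : ℝ)..y, F u) - C * Real.exp (-(c * y)) - ε ≤ (pairs T (Set.Ioc 0 y) : ℝ) / X T

/-- the lower bound for the number of all pairs, for large distances, up to an exponentially small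
error -/
def TotalLower : Prop := ∃ B C c : ℝ, 0 < c ∧ ∀ y : ℝ, B ≤ y → ∀ ε : ℝ, 0 < ε → ∀ᶠ T in atTop,
  1 + 2 * (∫ u in (0 : ℝ)..y, F u) - C * Real.exp (-(c * y)) - ε ≤
    (pairs T (Set.Icc (-y) y) : ℝ) / X T

/-- the upper bound for the number of all pairs, for large distances, up to an exponentially small
error -/
def TotalUpper : Prop := ∃ B C c : ℝ, 0 < c ∧ ∀ y : ℝ, B ≤ y → ∀ ε : ℝ, 0 < ε → ∀ᶠ T in atTop,
  (pairs T (Set.Icc (-y) y) : ℝ) / X T ≤
    1 + 2 * (∫ u in (0 : ℝ)..y, F u) + C * Real.exp (-(c * y)) + ε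

open Pool.Agent.E8helper29.PC (Zt mz Pc Xf Noff Nsc Aa dd)

lemma zeros_eq (T : ℝ) : zeros T = ↑(Zt T) := by
  ext s
  rw [Finset.mem_coe, Pool.Agent.E8helper29.PC.mem_Zt]
  simp only [zeros, H370.zset, Set.mem_ofPred_eq]
  tauto

lemma mult_eq (s : ℂ) : (mult s : ℝ) = mz s := rfl

lemma X_eq (T : ℝ) : X T = Xf T := rfl

lemma pairs_eq (T : ℝ) (S : Set ℝ) : (pairs T S : ℝ) = Pc T S := by
  classical
  have e : {p : ℂ × ℂ | p.1 ∈ zeros T ∧ p.2 ∈ zeros T ∧
      (p.1.im - p.2.im) * Real.log T / (2 * Real.pi) ∈ S} =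
      ↑((Zt T ×ˢ Zt T).filter (fun p : ℂ × ℂ =>
        (p.1.im - p.2.im) * Real.log T / (2 * Real.pi) ∈ S)) := by
    ext p
    rw [zeros_eq]
    simp only [Set.mem_ofPred_eq, Finset.coe_filter, Finset.mem_product, Finset.mem_coe, and_assoc]
  unfold pairs
  rw [e, finsum_mem_coe_finset]
  unfold Pc
  push_cast
  rw [Finset.sum_filter, Finset.sum_product]
  refine Finset.sum_congr rfl fun s _ => Finset.sum_congr rfl fun s' _ => ?_
  by_cases h : (s.im - s'.im) * Real.log T / (2 * Real.pi) ∈ S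
  · rw [if_pos h, Set.indicator_of_mem (show dd T s s' ∈ S from h), mul_one]
    rfl
  · rw [if_neg h, Set.indicator_of_notMem (show dd T s s' ∉ S from h), mul_zero]

lemma Nall_eq (T : ℝ) : (Nall T : ℝ) = (H370.NN riemannZeta 0 T : ℝ) := by
  unfold Nall
  rw [zeros_eq, finsum_mem_coe_finset, ← Pool.Agent.E8helper29.PC.sum_Zt]
  push_cast
  rfl

lemma Ncrit_eq (T : ℝ) : (Ncrit T : ℝ) = Nall T - Noff T := by
  classical
  have e : {s : ℂ | s ∈ zeros T ∧ s.re = 1 / 2} = ↑((Zt T).filter (fun s => s.re = 1 / 2)) := by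
    ext s
    rw [zeros_eq]
    simp
  unfold Ncrit
  rw [e, finsum_mem_coe_finset, Nall_eq, ← Pool.Agent.E8helper29.PC.sum_Zt]
  unfold Noff
  rw [← Finset.sum_filter_add_sum_filter_not (Zt T) (fun s => s.re = 1 / 2)]
  push_cast
  rw [add_sub_cancel_right]
  rfl

lemma Nsimple_eq (T : ℝ) : (Nsimple T : ℝ) = Nsc T := by
  classical
  have e : {s : ℂ | s ∈ zeros T ∧ s.re = 1 / 2 ∧ mult s = 1} =
      ↑((Zt T).filter (fun s => s.re = 1 / 2 ∧ H370.mult riemannZeta s = 1)) := by
    ext s
    rw [zeros_eq]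
    simp only [Set.mem_ofPred_eq, Finset.coe_filter, Finset.mem_coe]
    rfl
  unfold Nsimple Nsc
  rw [e, Set.ncard_coe_finset, Finset.card_eq_sum_ones]
  push_cast
  refine Finset.sum_congr rfl fun s hs => ?_
  rw [Finset.mem_filter] at hs
  unfold mz
  rw [hs.2.2]
  simp

lemma F_int (a b : ℝ) : ∫ u in a..b, F u = Pool.Agent.Y744.gp b - Pool.Agent.Y744.gp a := by
  rw [Pool.Agent.Y744.gp_sub]
  refine intervalIntegral.integral_congr_ae ?_
  have h0 : ∀ᵐ x : ℝ, x ≠ 0 := by
    rw [MeasureTheory.ae_iff]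
    simp
  filter_upwards [h0] with x hx _
  unfold F Pool.Agent.Y744.gd
  rw [Real.sinc_of_ne_zero (mul_ne_zero Real.pi_ne_zero hx)]

lemma X_pos {T : ℝ} (hT : 1 < T) : 0 < X T := Pool.Agent.E8helper29.PC.Xf_pos hT

open Pool.Agent.Y744 (gp gp_zero gp_cont AG gp_mono)
open Pool.Agent.E8helper29.PC (AG_pos)

lemma Aa_eq (T y : ℝ) : Aa T y = (pairs T (Set.Icc (-y) y) : ℝ) / X T := by
  rw [pairs_eq]
  unfold Aa
  have : {x : ℝ | |x| ≤ y} = Set.Icc (-y) y := by
    ext x
    simp [abs_le]
  rw [this, inv_mul_eq_div, X_eq]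

/-- differences of the counting function -/
lemma Aa_diff {T a b : ℝ} (ha : 0 ≤ a) (hab : a ≤ b) :
    Aa T b - Aa T a = 2 * ((pairs T (Set.Ioc a b) : ℝ) / X T) := by
  have e1 : {x : ℝ | |x| ≤ b} = {x : ℝ | |x| ≤ a} ∪ (Set.Ioc a b ∪ -Set.Ioc a b) := by
    ext x
    simp only [Set.mem_ofPred_eq, Set.mem_union, Set.mem_Ioc, Set.mem_neg]
    constructor
    · intro h
      rcases le_or_gt |x| a with h1 | h1
      · exact Or.inl h1
      · right
        rcases abs_cases x with ⟨h2, _⟩ | ⟨h2, _⟩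
        · rw [h2] at h h1
          exact Or.inl ⟨h1, h⟩
        · rw [h2] at h h1
          exact Or.inr ⟨h1, h⟩
    · rintro (h | ⟨h1, h2⟩ | ⟨h1, h2⟩)
      · exact h.trans hab
      · rw [abs_of_pos (by linarith)]
        exact h2
      · rw [abs_of_neg (by linarith)]
        exact h2
  have d1 : Disjoint {x : ℝ | |x| ≤ a} (Set.Ioc a b ∪ -Set.Ioc a b) := by
    rw [Set.disjoint_left]
    rintro x (h : |x| ≤ a) (⟨h1, h2⟩ | ⟨h1, h2⟩)
    · linarith [le_abs_self x]
    · linarith [neg_le_abs x]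
  have d2 : Disjoint (Set.Ioc a b) (-Set.Ioc a b) := by
    rw [Set.disjoint_left]
    rintro x ⟨h1, h2⟩ ⟨h3, h4⟩
    linarith
  rw [pairs_eq]
  unfold Aa
  rw [e1, Pool.Agent.E8helper29.PC.Pc_union T d1, Pool.Agent.E8helper29.PC.Pc_union T d2,
    Pool.Agent.E8helper29.PC.Pc_neg, X_eq]
  ring

lemma pairs_mono {T : ℝ} (hT : 1 < T) {S S' : Set ℝ} (h : S ⊆ S') :
    (pairs T S : ℝ) / X T ≤ (pairs T S' : ℝ) / X T := by
  refine div_le_div_of_nonneg_right ?_ (X_pos hT).le
  rw [pairs_eq, pairs_eq]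
  exact Pool.Agent.E8helper29.PC.Pc_mono T h

lemma gp_near {x ε : ℝ} (hε : 0 < ε) : ∃ δ, 0 < δ ∧ ∀ z, |z - x| < δ → |gp z - gp x| < ε := by
  obtain ⟨δ, hδ, h⟩ := Metric.continuousAt_iff.1 gp_cont.continuousAt ε hε
  exact ⟨δ, hδ, fun z hz => by
    have := h (x := z) (by rwa [Real.dist_eq])
    rwa [Real.dist_eq] at this⟩

/-- the conjecture with an additive error -/
lemma PCC_iff : PCC ↔ ∀ α β : ℝ, 0 < α → α < β →
    Tendsto (fun T => (pairs T (Set.Icc α β) : ℝ) / X T) atTop (𝓝 (gp β - gp α)) := by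
  have hne : ∀ α β : ℝ, 0 < α → α < β → 0 < gp β - gp α := by
    intro α β hα hαβ
    rw [Pool.Agent.Y744.gp_sub]
    refine intervalIntegral.intervalIntegral_pos_of_pos_on
      (Pool.Agent.Y744.gd_cont.intervalIntegrable _ _) (fun x hx => ?_) hαβ
    have hx0 : 0 < x := hα.trans hx.1
    unfold Pool.Agent.Y744.gd
    have hy : Real.pi * x ≠ 0 := mul_ne_zero Real.pi_ne_zero hx0.ne'
    have h1 : |Real.sinc (Real.pi * x)| < 1 := by
      rw [Real.sinc_of_ne_zero hy, abs_div, div_lt_one (abs_pos.2 hy)]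
      exact Real.abs_sin_lt_abs hy
    have h2 : Real.sinc (Real.pi * x) ^ 2 < 1 := (sq_lt_one_iff_abs_lt_one _).2 h1
    linarith
  unfold PCC
  refine forall_congr' fun α => forall_congr' fun β => forall_congr' fun hα =>
    forall_congr' fun hαβ => ?_
  have hc := hne α β hα hαβ
  rw [isEquivalent_iff_tendsto_one, F_int]
  · constructor
    · intro h
      have h1 := h.mul_const (gp β - gp α)
      rw [one_mul] at h1
      refine h1.congr' ?_
      filter_upwards [eventually_gt_atTop (1 : ℝ)] with T hT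
      have := X_pos hT
      simp only [Pi.div_apply]
      field_simp
    · intro h
      have h1 := h.div_const (gp β - gp α)
      rw [div_self hc.ne'] at h1
      refine h1.congr' ?_
      filter_upwards [eventually_gt_atTop (1 : ℝ)] with T hT
      have := X_pos hT
      simp only [Pi.div_apply]
      field_simp
  · filter_upwards [eventually_gt_atTop (1 : ℝ)] with T hT
    rw [F_int]
    exact mul_ne_zero (X_pos hT).ne' hc.ne'

/-- closed windows and half open windows -/
lemma window_lower {T α β : ℝ} (hT : 1 < T) (hα : 0 < α) (hαβ : α < β) :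
    (Aa T β - Aa T α) / 2 ≤ (pairs T (Set.Icc α β) : ℝ) / X T := by
  rw [Aa_diff hα.le hαβ.le, mul_div_cancel_left₀ _ (by norm_num : (2 : ℝ) ≠ 0)]
  exact pairs_mono hT Set.Ioc_subset_Icc_self

lemma window_upper {T z α β : ℝ} (hT : 1 < T) (hz : 0 ≤ z) (hzα : z < α) (hαβ : α < β) :
    (pairs T (Set.Icc α β) : ℝ) / X T ≤ (Aa T β - Aa T z) / 2 := by
  rw [Aa_diff hz (by linarith), mul_div_cancel_left₀ _ (by norm_num : (2 : ℝ) ≠ 0)]
  exact pairs_mono hT fun x hx => ⟨hzα.trans_le hx.1, hx.2⟩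

/-- from the counting functions to the conjecture -/
lemma PCC_of_Aa (h : ∀ x, Tendsto (fun T => Aa T x) atTop (𝓝 (AG x))) : PCC := by
  rw [PCC_iff]
  intro α β hα hαβ
  have hβ : 0 < β := hα.trans hαβ
  rw [tendsto_order]
  constructor
  · intro a ha
    have h1 := ((h β).sub (h α)).div_const 2
    rw [AG_pos hβ.le, AG_pos hα.le] at h1
    have h2 := h1.eventually_const_lt (show a < (1 + 2 * gp β - (1 + 2 * gp α)) / 2 by linarith)
    filter_upwards [h2, eventually_gt_atTop (1 : ℝ)] with T hT1 hT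
    exact hT1.trans_le (window_lower hT hα hαβ)
  · intro a ha
    obtain ⟨δ, hδ, hz⟩ := gp_near (x := α) (ε := a - (gp β - gp α)) (by linarith)
    set z := max (α / 2) (α - δ / 2) with hzdef
    have hz1 : α / 2 ≤ z := le_max_left _ _
    have hz2 : α - δ / 2 ≤ z := le_max_right _ _
    have hz3 : z < α := by
      rw [hzdef, max_lt_iff]
      constructor <;> linarith
    have hz4 := hz z (by rw [abs_lt]; constructor <;> linarith)
    rw [abs_lt] at hz4
    have h1 := ((h β).sub (h z)).div_const 2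
    rw [AG_pos hβ.le, AG_pos (show 0 ≤ z by linarith)] at h1
    have h2 := h1.eventually_lt_const (show (1 + 2 * gp β - (1 + 2 * gp z)) / 2 < a by linarith)
    filter_upwards [h2, eventually_gt_atTop (1 : ℝ)] with T hT1 hT
    exact (window_upper hT (by linarith) hz3 hαβ).trans_lt hT1

/-- the conjecture implies its lower half -/
lemma half_of_PCC (h : PCC) (y : ℝ) (hy : 0 < y) (ε : ℝ) (hε : 0 < ε) : ∀ᶠ T in atTop,
    (∫ u in (0 : ℝ)..y, F u) - ε ≤ (pairs T (Set.Ioc 0 y) : ℝ) / X T := by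
  rw [PCC_iff] at h
  obtain ⟨δ, hδ, hz⟩ := gp_near (x := 0) (ε := ε / 2) (by positivity)
  set z := min (y / 2) (δ / 2) with hzdef
  have hz1 : z ≤ y / 2 := min_le_left _ _
  have hz2 : z ≤ δ / 2 := min_le_right _ _
  have hz3 : 0 < z := lt_min (by positivity) (by positivity)
  have hz4 := hz z (by rw [sub_zero, abs_of_pos hz3]; linarith)
  rw [gp_zero, sub_zero, abs_lt] at hz4
  have h1 := (h z y hz3 (by linarith)).eventually_const_lt
    (show gp y - gp z - ε / 2 < gp y - gp z by linarith)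
  filter_upwards [h1, eventually_gt_atTop (1 : ℝ)] with T hT1 hT
  rw [F_int, gp_zero, sub_zero]
  have h2 := pairs_mono hT (S := Set.Icc z y) (S' := Set.Ioc 0 y)
    fun x hx => ⟨hz3.trans_le hx.1, hx.2⟩
  linarith

lemma Noff_iff : AlmostAllCritical ↔ Tendsto (fun T => Noff T / Xf T) atTop (𝓝 0) := by
  have hN := Pool.Agent.E8helper29.PC.NT_lim
  have e : ∀ᶠ T in atTop, (Ncrit T : ℝ) / Nall T = 1 - Noff T / Xf T * ((Nall T : ℝ) / Xf T)⁻¹ := by
    filter_upwards [hN.eventually_const_lt (show (1 / 2 : ℝ) < 1 by norm_num),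
      eventually_gt_atTop (1 : ℝ)] with T hT1 hT
    have hX := X_pos hT
    rw [X_eq] at hX
    rw [← Nall_eq] at hT1
    have h2 : 0 < (Nall T : ℝ) := by
      rw [lt_div_iff₀ hX] at hT1
      nlinarith
    rw [Ncrit_eq]
    field_simp
  unfold AlmostAllCritical
  rw [tendsto_congr' e]
  have hN2 : Tendsto (fun T => (Nall T : ℝ) / Xf T) atTop (𝓝 1) := by
    simp_rw [Nall_eq]
    exact hN
  constructor
  · intro h
    have h1 := (tendsto_const_nhds (x := (1 : ℝ)).sub h).mul hN2
    rw [sub_self, zero_mul] at h1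
    refine h1.congr' ?_
    filter_upwards [hN2.eventually_const_lt (show (1 / 2 : ℝ) < 1 by norm_num)] with T hT
    have : (Nall T : ℝ) / Xf T ≠ 0 := by linarith
    rw [sub_sub_cancel, inv_mul_cancel_right₀ this]
  · intro h
    have h1 := tendsto_const_nhds (x := (1 : ℝ)).sub (h.mul (hN2.inv₀ one_ne_zero))
    rw [zero_mul, sub_zero] at h1
    exact h1

lemma simple_of_Aa (h : Tendsto (fun T => Aa T 0) atTop (𝓝 1)) : AlmostAllSimple := by
  obtain ⟨h1, _⟩ := Pool.Agent.E8helper29.PC.simple_of_diag h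
  have hN := Pool.Agent.E8helper29.PC.NT_lim
  have h2 := h1.div hN one_ne_zero
  rw [div_one] at h2
  unfold AlmostAllSimple
  refine h2.congr' ?_
  filter_upwards [eventually_gt_atTop (1 : ℝ)] with T hT
  have hX := X_pos hT
  rw [X_eq] at hX
  simp only [Pi.div_apply]
  rw [Nsimple_eq, Nall_eq]
  field_simp

/-- the lower half for pairs with different ordinates, for all distances -/
def LowerHalf : Prop := ∀ y : ℝ, 0 < y → ∀ ε : ℝ, 0 < ε → ∀ᶠ T in atTop,
  (∫ u in (0 : ℝ)..y, F u) - ε ≤ (pairs T (Set.Ioc 0 y) : ℝ) / X T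

lemma exp_bd {C c y : ℝ} : C * Real.exp (-(c * y)) ≤ max C 0 * Real.exp (-(c * y)) :=
  mul_le_mul_of_nonneg_right (le_max_left _ _) (Real.exp_pos _).le

lemma Aa_of_far (h : LowerHalfFar) : ∀ x, Tendsto (fun T => Aa T x) atTop (𝓝 (AG x)) := by
  obtain ⟨B, C, c, hc, h⟩ := h
  refine Pool.Agent.E8helper29.PC.lower_half (B0 := max B 0) (C1 := 2 * max C 0) (c := c)
    (le_max_right _ _) (mul_nonneg (by norm_num) (le_max_right _ _)) hc fun y hy ε hε => ?_
  have hy0 : 0 ≤ y := (le_max_right _ _).trans hy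
  filter_upwards [h y ((le_max_left _ _).trans hy) (ε / 2) (by positivity)] with T hT
  rw [F_int, gp_zero, sub_zero] at hT
  rw [Aa_diff le_rfl hy0]
  have := exp_bd (C := C) (c := c) (y := y)
  linarith

lemma Aa_of_lower (h0 : AlmostAllCritical) (h : TotalLower) :
    ∀ x, Tendsto (fun T => Aa T x) atTop (𝓝 (AG x)) := by
  obtain ⟨B, C, c, hc, h⟩ := h
  refine Pool.Agent.E8helper29.PC.total_one (Noff_iff.1 h0) (s := 1) (B0 := max B 0)
    (C1 := max C 0) (c := c) (Or.inl rfl)
    (le_max_right _ _) (le_max_right _ _) hc fun y hy ε hε => ?_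
  have hy0 : 0 ≤ y := (le_max_right _ _).trans hy
  filter_upwards [h y ((le_max_left _ _).trans hy) ε hε] with T hT
  rw [F_int, gp_zero, sub_zero] at hT
  rw [Aa_eq, AG_pos hy0]
  have := exp_bd (C := C) (c := c) (y := y)
  linarith

lemma Aa_of_upper (h0 : AlmostAllCritical) (h : TotalUpper) :
    ∀ x, Tendsto (fun T => Aa T x) atTop (𝓝 (AG x)) := by
  obtain ⟨B, C, c, hc, h⟩ := h
  refine Pool.Agent.E8helper29.PC.total_one (Noff_iff.1 h0) (s := -1) (B0 := max B 0)
    (C1 := max C 0) (c := c) (Or.inr rfl)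
    (le_max_right _ _) (le_max_right _ _) hc fun y hy ε hε => ?_
  have hy0 : 0 ≤ y := (le_max_right _ _).trans hy
  filter_upwards [h y ((le_max_left _ _).trans hy) ε hε] with T hT
  rw [F_int, gp_zero, sub_zero] at hT
  rw [Aa_eq, AG_pos hy0]
  have := exp_bd (C := C) (c := c) (y := y)
  linarith

/-- what the convergence of the counting functions gives -/
lemma all_of_Aa (h : ∀ x, Tendsto (fun T => Aa T x) atTop (𝓝 (AG x))) :
    AlmostAllSimple ∧ AlmostAllCritical ∧ TotalLower ∧ TotalUpper := by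
  have h0 : Tendsto (fun T => Aa T 0) atTop (𝓝 1) := by
    have := h 0
    rwa [AG_pos le_rfl, gp_zero, mul_zero, add_zero] at this
  refine ⟨simple_of_Aa h0, Noff_iff.2 (Pool.Agent.E8helper29.PC.simple_of_diag h0).2,
    ⟨0, 0, 1, one_pos, fun y hy ε hε => ?_⟩, ⟨0, 0, 1, one_pos, fun y hy ε hε => ?_⟩⟩
  · have h1 := h y
    rw [AG_pos hy] at h1
    have h2 := h1.eventually_const_lt (show 1 + 2 * gp y - ε < 1 + 2 * gp y by linarith)
    filter_upwards [h2] with T hT
    rw [F_int, gp_zero, sub_zero, ← Aa_eq]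
    linarith
  · have h1 := h y
    rw [AG_pos hy] at h1
    have h2 := h1.eventually_lt_const (show 1 + 2 * gp y < 1 + 2 * gp y + ε by linarith)
    filter_upwards [h2] with T hT
    rw [F_int, gp_zero, sub_zero, ← Aa_eq]
    linarith

/-- the equivalences -/
theorem equiv : (PCC ↔ LowerHalf) ∧ (PCC ↔ LowerHalfFar) ∧
    (PCC ↔ AlmostAllCritical ∧ TotalLower) ∧ (PCC ↔ AlmostAllCritical ∧ TotalUpper) ∧
    (PCC → AlmostAllSimple) := by
  have h1 : PCC → LowerHalf := half_of_PCC
  have h2 : LowerHalf → LowerHalfFar := fun h => ⟨1, 0, 1, one_pos, fun y hy ε hε => by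
    filter_upwards [h y (by linarith) ε hε] with T hT
    linarith⟩
  have h3 : LowerHalfFar → ∀ x, Tendsto (fun T => Aa T x) atTop (𝓝 (AG x)) := Aa_of_far
  have hA : PCC → ∀ x, Tendsto (fun T => Aa T x) atTop (𝓝 (AG x)) := fun h => h3 (h2 (h1 h))
  refine ⟨⟨h1, fun h => PCC_of_Aa (h3 (h2 h))⟩, ⟨fun h => h2 (h1 h), fun h => PCC_of_Aa (h3 h)⟩,
    ⟨fun h => ⟨(all_of_Aa (hA h)).2.1, (all_of_Aa (hA h)).2.2.1⟩,
      fun h => PCC_of_Aa (Aa_of_lower h.1 h.2)⟩,
    ⟨fun h => ⟨(all_of_Aa (hA h)).2.1, (all_of_Aa (hA h)).2.2.2⟩,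
      fun h => PCC_of_Aa (Aa_of_upper h.1 h.2)⟩, fun h => (all_of_Aa (hA h)).1⟩

/-- **Far range one sided forms of the pair correlation conjecture.** The conjecture is equivalent
to its lower half for the pairs with different ordinates within large distances, up to an
exponentially small error; and to a lower (or an upper) bound for the number of all pairs within
large distances, up to an exponentially small error, together with the statement that almost all
zeros are on the critical line. -/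
theorem result :
    (PCC ↔ LowerHalfFar) ∧ (PCC ↔ AlmostAllCritical ∧ TotalLower) ∧
    (PCC ↔ AlmostAllCritical ∧ TotalUpper) :=
  ⟨equiv.2.1, equiv.2.2.1, equiv.2.2.2.1⟩

end Pool.Agent.Results.MP_8958e8_nt.FarRangeH29
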