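import Pool.Agent.E8helper29.PC.Main2

/-!
# One sided bounds for the pairs up to a distance determine them up to an exponentially small error

No hypothesis is assumed.  `pairs T S` is the number of ordered pairs of nontrivial zeros of zeta
with ordinates `γ, γ'` in `(0, T]`, counted with multiplicity, for which
`(γ - γ') log T / 2π` lies in `S`.  The pair correlation conjecture predicts
`pairs T [-y, y] ~ X(T) (1 + 2 ∫_0^y F)` for all `y ≥ 0` (this includes that almost all zeros are
simple) and `pairs T [α, β] ~ X(T) ∫_α^β F` for all `0 < α < β`.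

There are absolute constants `C, c > 0` such that for every `A > 0` the following holds.  If for
all `y` in `(0, A)` the upper half of the prediction for `pairs T [-y, y]` is true, then for all
`y` in `[0, A)` it is true up to the error `C exp (- c (A - y))`, and the same holds for all windows
`[α, β]` with `0 < α < β < A`; in particular the proportion of the multiple zeros and of the zeros
off the critical line is at most `C exp (- c A)`.  The same is true for the lower half, if almost
all zeros are on the critical line.  Nothing is assumed about the pairs at distances larger than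
`A`.  (For `A → ∞` this shows that each half implies the conjecture; the point here is the rate.)

Idea of the proof.  If the upper half is true near `y = 0` then almost all zeros are simple and on
the line, and then the form factor of the ordinates is known for `|α| < 1/2`.  The difference `W(y)`
of the number of pairs and its prediction, for a limit of the heights, satisfies
`∫ W(y) y k(y) dy = 0` for all cosine transforms `k` of functions supported in `(-1/2, 1/2)`.  Let
`m` be about `c (A - x)`, and let `k` be the `m`-th power of a fixed nonnegative such function with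
the support divided by `m`, translated to `x`: it is at least `1/2` near `x` and at most
`exp (- 2 m)` at distance `A - x`.  The window bound for the number of pairs, which is unconditional,
then bounds `W(x)`.
-/

open Filter Topology Complex Asymptotics

namespace Pool.Agent.Results.MP_8958e8_nt.FiniteRangeH29

/-- the nontrivial zeros of zeta with ordinate in `(0, T]` -/
def zeros (T : ℝ) : Set ℂ :=
  {s : ℂ | riemannZeta s = 0 ∧ 0 < s.re ∧ s.re < 1 ∧ 0 < s.im ∧ s.im ≤ T}

/-- the multiplicity of a zero -/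
noncomputable def mult (s : ℂ) : ℕ := analyticOrderNatAt riemannZeta s

/-- the number of ordered pairs of zeros in `zeros T`, counted with multiplicity, with difference of
the ordinates times `log T / 2π` in `S` -/
noncomputable def pairs (T : ℝ) (S : Set ℝ) : ℕ :=
  ∑ᶠ p ∈ {p : ℂ × ℂ | p.1 ∈ zeros T ∧ p.2 ∈ zeros T ∧
    (p.1.im - p.2.im) * Real.log T / (2 * Real.pi) ∈ S}, mult p.1 * mult p.2

/-- the pair correlation function -/
noncomputable def F (u : ℝ) : ℝ := 1 - (Real.sin (Real.pi * u) / (Real.pi * u)) ^ 2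

/-- the normalisation `T log T / 2π` -/
noncomputable def X (T : ℝ) : ℝ := T * Real.log T / (2 * Real.pi)

/-- the number of zeros in `zeros T`, with multiplicity -/
noncomputable def Nall (T : ℝ) : ℕ := ∑ᶠ s ∈ zeros T, mult s

/-- the number of zeros in `zeros T` on the critical line, with multiplicity -/
noncomputable def Ncrit (T : ℝ) : ℕ := ∑ᶠ s ∈ {s : ℂ | s ∈ zeros T ∧ s.re = 1 / 2}, mult s

/-- almost all zeros are on the critical line -/
def AlmostAllCritical : Prop := Tendsto (fun T => (Ncrit T : ℝ) / Nall T) atTop (𝓝 1)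

/-- the predicted number of pairs with `|γ - γ'| log T / 2π ≤ y`, divided by `X T` -/
noncomputable def pred (y : ℝ) : ℝ := 1 + 2 * ∫ u in (0 : ℝ)..y, F u

/-- the upper half of the prediction for the distances less than `A` -/
def UpperUpTo (A : ℝ) : Prop := ∀ y : ℝ, 0 < y → y < A → ∀ ε : ℝ, 0 < ε → ∀ᶠ T in atTop,
  (pairs T (Set.Icc (-y) y) : ℝ) / X T ≤ pred y + ε

/-- the lower half of the prediction for the distances less than `A` -/
def LowerUpTo (A : ℝ) : Prop := ∀ y : ℝ, 0 < y → y < A → ∀ ε : ℝ, 0 < ε → ∀ᶠ T in atTop,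
  pred y - ε ≤ (pairs T (Set.Icc (-y) y) : ℝ) / X T

open Pool.Agent.E8helper29.PC (Zt mz Pc Xf Noff Nsc Aa dd)

lemma zeros_eq (T : ℝ) : zeros T = ↑(Zt T) := by
  ext s
  rw [Finset.mem_coe, Pool.Agent.E8helper29.PC.mem_Zt]
  simp only [zeros, H370.zset, Set.mem_ofPred_eq]
  tauto

lemma mult_eq (s : ℂ) : (mult s : ℝ) = mz s := rfl

lemma X_eq (T : ℝ) : X T = Xf T := rfl

lemma pairs_eq (T : ℝ) (S : Set ℝ) : (pairs T S : ℝ) = Pc T S := by
  classical
  have e : {p : ℂ × ℂ | p.1 ∈ zeros T ∧ p.2 ∈ zeros T ∧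
      (p.1.im - p.2.im) * Real.log T / (2 * Real.pi) ∈ S} =
      ↑((Zt T ×ˢ Zt T).filter (fun p : ℂ × ℂ =>
        (p.1.im - p.2.im) * Real.log T / (2 * Real.pi) ∈ S)) := by
    ext p
    rw [zeros_eq]
    simp only [Set.mem_ofPred_eq, Finset.coe_filter, Finset.mem_product, Finset.mem_coe, and_assoc]
  unfold pairs
  rw [e, finsum_mem_coe_finset]
  unfold Pc
  push_cast
  rw [Finset.sum_filter, Finset.sum_product]
  refine Finset.sum_congr rfl fun s _ => Finset.sum_congr rfl fun s' _ => ?_
  by_cases h : (s.im - s'.im) * Real.log T / (2 * Real.pi) ∈ S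
  · rw [if_pos h, Set.indicator_of_mem (show dd T s s' ∈ S from h), mul_one]
    rfl
  · rw [if_neg h, Set.indicator_of_notMem (show dd T s s' ∉ S from h), mul_zero]

lemma Nall_eq (T : ℝ) : (Nall T : ℝ) = (H370.NN riemannZeta 0 T : ℝ) := by
  unfold Nall
  rw [zeros_eq, finsum_mem_coe_finset, ← Pool.Agent.E8helper29.PC.sum_Zt]
  push_cast
  rfl

lemma Ncrit_eq (T : ℝ) : (Ncrit T : ℝ) = Nall T - Noff T := by
  classical
  have e : {s : ℂ | s ∈ zeros T ∧ s.re = 1 / 2} = ↑((Zt T).filter (fun s => s.re = 1 / 2)) := by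
    ext s
    rw [zeros_eq]
    simp
  unfold Ncrit
  rw [e, finsum_mem_coe_finset, Nall_eq, ← Pool.Agent.E8helper29.PC.sum_Zt]
  unfold Noff
  rw [← Finset.sum_filter_add_sum_filter_not (Zt T) (fun s => s.re = 1 / 2)]
  push_cast
  rw [add_sub_cancel_right]
  rfl

lemma F_int (a b : ℝ) : ∫ u in a..b, F u = Pool.Agent.Y744.gp b - Pool.Agent.Y744.gp a := by
  rw [Pool.Agent.Y744.gp_sub]
  refine intervalIntegral.integral_congr_ae ?_
  have h0 : ∀ᵐ x : ℝ, x ≠ 0 := by
    rw [MeasureTheory.ae_iff]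
    simp
  filter_upwards [h0] with x hx _
  unfold F Pool.Agent.Y744.gd
  rw [Real.sinc_of_ne_zero (mul_ne_zero Real.pi_ne_zero hx)]

lemma X_pos {T : ℝ} (hT : 1 < T) : 0 < X T := Pool.Agent.E8helper29.PC.Xf_pos hT

open Pool.Agent.Y744 (gp gp_zero gp_cont AG gp_mono)
open Pool.Agent.E8helper29.PC (AG_pos)

lemma Aa_eq (T y : ℝ) : Aa T y = (pairs T (Set.Icc (-y) y) : ℝ) / X T := by
  rw [pairs_eq]
  unfold Aa
  have : {x : ℝ | |x| ≤ y} = Set.Icc (-y) y := by
    ext x
    simp [abs_le]
  rw [this, inv_mul_eq_div, X_eq]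

/-- differences of the counting function -/
lemma Aa_diff {T a b : ℝ} (ha : 0 ≤ a) (hab : a ≤ b) :
    Aa T b - Aa T a = 2 * ((pairs T (Set.Ioc a b) : ℝ) / X T) := by
  have e1 : {x : ℝ | |x| ≤ b} = {x : ℝ | |x| ≤ a} ∪ (Set.Ioc a b ∪ -Set.Ioc a b) := by
    ext x
    simp only [Set.mem_ofPred_eq, Set.mem_union, Set.mem_Ioc, Set.mem_neg]
    constructor
    · intro h
      rcases le_or_gt |x| a with h1 | h1
      · exact Or.inl h1
      · right
        rcases abs_cases x with ⟨h2, _⟩ | ⟨h2, _⟩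
        · rw [h2] at h h1
          exact Or.inl ⟨h1, h⟩
        · rw [h2] at h h1
          exact Or.inr ⟨h1, h⟩
    · rintro (h | ⟨h1, h2⟩ | ⟨h1, h2⟩)
      · exact h.trans hab
      · rw [abs_of_pos (by linarith)]
        exact h2
      · rw [abs_of_neg (by linarith)]
        exact h2
  have d1 : Disjoint {x : ℝ | |x| ≤ a} (Set.Ioc a b ∪ -Set.Ioc a b) := by
    rw [Set.disjoint_left]
    rintro x (h : |x| ≤ a) (⟨h1, h2⟩ | ⟨h1, h2⟩)
    · linarith [le_abs_self x]
    · linarith [neg_le_abs x]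
  have d2 : Disjoint (Set.Ioc a b) (-Set.Ioc a b) := by
    rw [Set.disjoint_left]
    rintro x ⟨h1, h2⟩ ⟨h3, h4⟩
    linarith
  rw [pairs_eq]
  unfold Aa
  rw [e1, Pool.Agent.E8helper29.PC.Pc_union T d1, Pool.Agent.E8helper29.PC.Pc_union T d2,
    Pool.Agent.E8helper29.PC.Pc_neg, X_eq]
  ring

lemma pairs_mono {T : ℝ} (hT : 1 < T) {S S' : Set ℝ} (h : S ⊆ S') :
    (pairs T S : ℝ) / X T ≤ (pairs T S' : ℝ) / X T := by
  refine div_le_div_of_nonneg_right ?_ (X_pos hT).le
  rw [pairs_eq, pairs_eq]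
  exact Pool.Agent.E8helper29.PC.Pc_mono T h

lemma gp_near {x ε : ℝ} (hε : 0 < ε) : ∃ δ, 0 < δ ∧ ∀ z, |z - x| < δ → |gp z - gp x| < ε := by
  obtain ⟨δ, hδ, h⟩ := Metric.continuousAt_iff.1 gp_cont.continuousAt ε hε
  exact ⟨δ, hδ, fun z hz => by
    have := h (x := z) (by rwa [Real.dist_eq])
    rwa [Real.dist_eq] at this⟩

/-- closed windows and half open windows -/
lemma window_lower {T α β : ℝ} (hT : 1 < T) (hα : 0 < α) (hαβ : α < β) :
    (Aa T β - Aa T α) / 2 ≤ (pairs T (Set.Icc α β) : ℝ) / X T := by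
  rw [Aa_diff hα.le hαβ.le, mul_div_cancel_left₀ _ (by norm_num : (2 : ℝ) ≠ 0)]
  exact pairs_mono hT Set.Ioc_subset_Icc_self

lemma window_upper {T z α β : ℝ} (hT : 1 < T) (hz : 0 ≤ z) (hzα : z < α) (hαβ : α < β) :
    (pairs T (Set.Icc α β) : ℝ) / X T ≤ (Aa T β - Aa T z) / 2 := by
  rw [Aa_diff hz (by linarith), mul_div_cancel_left₀ _ (by norm_num : (2 : ℝ) ≠ 0)]
  exact pairs_mono hT fun x hx => ⟨hzα.trans_le hx.1, hx.2⟩

lemma Noff_iff : AlmostAllCritical ↔ Tendsto (fun T => Noff T / Xf T) atTop (𝓝 0) := by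
  have hN := Pool.Agent.E8helper29.PC.NT_lim
  have e : ∀ᶠ T in atTop, (Ncrit T : ℝ) / Nall T = 1 - Noff T / Xf T * ((Nall T : ℝ) / Xf T)⁻¹ := by
    filter_upwards [hN.eventually_const_lt (show (1 / 2 : ℝ) < 1 by norm_num),
      eventually_gt_atTop (1 : ℝ)] with T hT1 hT
    have hX := X_pos hT
    rw [X_eq] at hX
    rw [← Nall_eq] at hT1
    have h2 : 0 < (Nall T : ℝ) := by
      rw [lt_div_iff₀ hX] at hT1
      nlinarith
    rw [Ncrit_eq]
    field_simp
  unfold AlmostAllCritical
  rw [tendsto_congr' e]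
  have hN2 : Tendsto (fun T => (Nall T : ℝ) / Xf T) atTop (𝓝 1) := by
    simp_rw [Nall_eq]
    exact hN
  constructor
  · intro h
    have h1 := (tendsto_const_nhds (x := (1 : ℝ)).sub h).mul hN2
    rw [sub_self, zero_mul] at h1
    refine h1.congr' ?_
    filter_upwards [hN2.eventually_const_lt (show (1 / 2 : ℝ) < 1 by norm_num)] with T hT
    have : (Nall T : ℝ) / Xf T ≠ 0 := by linarith
    rw [sub_sub_cancel, inv_mul_cancel_right₀ this]
  · intro h
    have h1 := tendsto_const_nhds (x := (1 : ℝ)).sub (h.mul (hN2.inv₀ one_ne_zero))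
    rw [zero_mul, sub_zero] at h1
    exact h1

lemma AG_pred {y : ℝ} (hy : 0 ≤ y) : AG y = pred y := by
  unfold pred
  rw [F_int, gp_zero, sub_zero, AG_pos hy]

/-- the bounds for the symmetric windows -/
theorem main : ∃ C c : ℝ, 0 < C ∧ 0 < c ∧ ∀ A : ℝ, 0 < A →
    (UpperUpTo A ∨ (AlmostAllCritical ∧ LowerUpTo A)) →
    ∀ y : ℝ, 0 ≤ y → y < A → ∀ ε : ℝ, 0 < ε → ∀ᶠ T in atTop,
      |(pairs T (Set.Icc (-y) y) : ℝ) / X T - pred y| ≤ C * Real.exp (-(c * (A - y))) + ε := by
  obtain ⟨C, c, hC, hc, h⟩ := Pool.Agent.E8helper29.PC.finite_exp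
  refine ⟨C, c, hC, hc, fun A hA hyp y hy hyA ε hε => ?_⟩
  rcases hyp with h1 | ⟨h0, h1⟩
  · have h2 := h A hA (-1) (Or.inr rfl) (fun h => by norm_num at h) (fun z hz hzA e he => by
      filter_upwards [h1 z hz hzA e he] with T hT
      rw [← Aa_eq, ← AG_pred hz.le] at hT
      linarith) y hy hyA ε hε
    filter_upwards [h2] with T hT
    rw [← Aa_eq, ← AG_pred hy]
    exact hT
  · have h2 := h A hA 1 (Or.inl rfl) (fun _ => Noff_iff.1 h0) (fun z hz hzA e he => by
      filter_upwards [h1 z hz hzA e he] with T hT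
      rw [← Aa_eq, ← AG_pred hz.le] at hT
      linarith) y hy hyA ε hε
    filter_upwards [h2] with T hT
    rw [← Aa_eq, ← AG_pred hy]
    exact hT

/-- **One sided bounds on a finite range of distances.** There are absolute constants `C, c > 0`
such that for every `A > 0`: if the upper half of the pair correlation conjecture for the windows
`[-y, y]` holds for all `0 < y < A`, or if almost all zeros are on the critical line and the lower
half holds for all `0 < y < A`, then for all `0 ≤ y < A` the prediction for the window `[-y, y]` is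
correct up to the error `C exp (- c (A - y))`, and for all `0 < α < β < A` the prediction for the
window `[α, β]` is correct up to the error `C exp (- c (A - β))`. -/
theorem result : ∃ C c : ℝ, 0 < C ∧ 0 < c ∧ ∀ A : ℝ, 0 < A →
    (UpperUpTo A ∨ (AlmostAllCritical ∧ LowerUpTo A)) →
    (∀ y : ℝ, 0 ≤ y → y < A → ∀ ε : ℝ, 0 < ε → ∀ᶠ T in atTop,
      |(pairs T (Set.Icc (-y) y) : ℝ) / X T - (1 + 2 * ∫ u in (0 : ℝ)..y, F u)| ≤
        C * Real.exp (-(c * (A - y))) + ε) ∧
    (∀ α β : ℝ, 0 < α → α < β → β < A → ∀ ε : ℝ, 0 < ε → ∀ᶠ T in atTop,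
      |(pairs T (Set.Icc α β) : ℝ) / X T - ∫ u in α..β, F u| ≤
        C * Real.exp (-(c * (A - β))) + ε) := by
  obtain ⟨C, c, hC, hc, h⟩ := main
  refine ⟨C, c, hC, hc, fun A hA hyp => ⟨h A hA hyp, fun α β hα hαβ hβA ε hε => ?_⟩⟩
  have hβ : 0 < β := hα.trans hαβ
  have hmono : ∀ z, z ≤ β → C * Real.exp (-(c * (A - z))) ≤ C * Real.exp (-(c * (A - β))) := by
    intro z hz
    gcongr
  obtain ⟨δ, hδ, hgp⟩ := gp_near (x := α) (ε := ε / 2) (by positivity)
  set z := max (α / 2) (α - δ / 2) with hzdef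
  have hz1 : α / 2 ≤ z := le_max_left _ _
  have hz2 : α - δ / 2 ≤ z := le_max_right _ _
  have hz3 : z < α := by
    rw [hzdef, max_lt_iff]
    constructor <;> linarith
  have hz0 : 0 < z := by linarith
  have hz4 := hgp z (by rw [abs_lt]; constructor <;> linarith)
  rw [abs_lt] at hz4
  filter_upwards [h A hA hyp β hβ.le hβA (ε / 4) (by positivity),
    h A hA hyp α hα.le (by linarith) (ε / 4) (by positivity),
    h A hA hyp z hz0.le (by linarith) (ε / 4) (by positivity), eventually_gt_atTop (1 : ℝ)]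
    with T h1 h2 h3 hT
  rw [← Aa_eq, ← AG_pred (by linarith), AG_pos (by linarith), abs_le] at h1 h2 h3
  have h4 := window_lower hT hα hαβ
  have h5 := window_upper hT hz0.le hz3 hαβ
  have h6 := hmono α hαβ.le
  have h7 := hmono z (by linarith)
  rw [F_int, abs_le]
  constructor <;> linarith

end Pool.Agent.Results.MP_8958e8_nt.FiniteRangeH29
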