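import Pool.Agent.E8helper29.FF.Tfae

/-!
# An upper bound for the mean of Montgomery's form factor implies the pair correlation conjecture

No hypothesis is assumed.  Let `F_T(x)` be Montgomery's form factor of the ordinates of all
nontrivial zeros in `[0, T]`, `F_T(x) = X(T)⁻¹ ∑ T^{i x (γ - γ')} w(γ - γ')`, with
`X(T) = (T / 2π) log T` and `w(u) = 4 / (4 + u²)`.  Along the full limit `T → ∞`, and along every
filter of heights tending to infinity (for example every sequence `T_n → ∞`), the following are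
equivalent.

1. The pair correlation conjecture: `N(T; α, β) ~ X(T) ∫_α^β F` for all `0 < α < β`.
2. `∫_a^b F_T(x) dx → ∫_a^b min(x, 1) dx` for all `0 < a < b`.
3. For all `1/3 ≤ a < b` the limit superior of `∫_a^b F_T(x) dx` is at most `∫_a^b min(x, 1) dx`.

So an asymptotic upper bound for the mean of the form factor over each fixed interval suffices; no
lower bound is needed, and nothing has to be assumed about the zeros off the critical line and
about multiple zeros (3. implies that almost all zeros are simple and on the line).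

Idea of the proof.  Let `μ` be a limit of the normalised pair measures, with the atom at the
origin, `μ₀` the predicted one, and let `ν = μ - μ₀`.  Take a nonnegative smooth even function `χ`
with compact support and nonnegative transform `k`.  Since the predicted density is `O(u²)` at the
origin, `∫ ε⁻¹ k(u / ε) dν(u) ≥ -C ε²`: for `μ` the atom at the origin alone is enough.  By 3. and
the unconditional pair correlation theorem for the ordinates in the range `|x| ≤ 1/2`, which has a
bounded error, `∫ ε⁻¹ k(u / ε) dν(u) ≤ C`.  Hence the atom has the predicted mass, almost all zeros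
are simple and on the line, and the unconditional theorem is exact.  Then the transform of `ν` is
nonpositive, while its integral against `χ(ε x)` is at least `-C ε²`.  So it vanishes.
-/

open Filter Topology MeasureTheory Set

namespace Pool.Agent.Results.MP_8958e8_nt.FormFactorUpperH29

open Pool.Agent.E8helper72.PC
open Pool.Agent.E8helper29.FF

/-- the nontrivial zeros of zeta with ordinate in `[0, T]` -/
def zeros (T : ℝ) : Set ℂ :=
  {s : ℂ | riemannZeta s = 0 ∧ 0 < s.re ∧ s.re < 1 ∧ 0 ≤ s.im ∧ s.im ≤ T}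

/-- the multiplicity of a zero -/
noncomputable def mult (s : ℂ) : ℕ := analyticOrderNatAt riemannZeta s

/-- the counting function `N(T; α, β)` of the problem: the number of ordered pairs of zeros in
`zeros T`, counted with multiplicity, for which the difference of the ordinates times `log T / 2π`
lies in `[α, β]` -/
noncomputable def N (T α β : ℝ) : ℕ :=
  ∑ᶠ p ∈ {p : ℂ × ℂ | p.1 ∈ zeros T ∧ p.2 ∈ zeros T ∧
    (p.1.im - p.2.im) * Real.log T / (2 * Real.pi) ∈ Icc α β}, mult p.1 * mult p.2

/-- `X(T) = (T / 2π) log T` -/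
noncomputable def X (T : ℝ) : ℝ := T * Real.log T / (2 * Real.pi)

/-- the pair correlation function -/
noncomputable def F (u : ℝ) : ℝ := 1 - (Real.sin (Real.pi * u) / (Real.pi * u)) ^ 2

/-- Montgomery's form factor: the sum of `T ^ (i x (γ - γ')) w(γ - γ')` over the ordered pairs of
ordinates of zeros in `zeros T`, with multiplicity, divided by `X(T)`; `w(u) = 4 / (4 + u²)` -/
noncomputable def formFactor (T x : ℝ) : ℝ :=
  (∑ᶠ p ∈ {p : ℂ × ℂ | p.1 ∈ zeros T ∧ p.2 ∈ zeros T}, (mult p.1 : ℝ) * mult p.2 *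
    (Real.cos (x * Real.log T * (p.1.im - p.2.im)) * (4 / (4 + (p.1.im - p.2.im) ^ 2)))) / X T

/-- the sets of zeros are finite -/
theorem zeros_finite (T : ℝ) : (zeros T).Finite := by
  have h : zeros T = ↑(ZT T) := zeros_eq T
  rw [h]
  exact Finset.finite_toSet _

lemma N_cw {T α β : ℝ} (hT : 10 ≤ T) (hα : 0 < α) :
    (N T α β : ℝ) / XX T = cw (SS T) (wn T) (xn T) α β := by
  classical
  rw [cw_window hT hα]
  congr 1
  exact pairs_eq T (Icc α β)

lemma form_eq (T x : ℝ) : formFactor T x = fk T x := by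
  have e : {p : ℂ × ℂ | p.1 ∈ zeros T ∧ p.2 ∈ zeros T} = ↑(SS T) := by
    have h : zeros T = ↑(ZT T) := zeros_eq T
    rw [h]
    ext p
    unfold SS
    simp
  unfold formFactor fk
  rw [e, finsum_mem_coe_finset]
  have hX : X T = XX T := rfl
  rw [hX]
  congr 1
  refine Finset.sum_congr rfl fun p _ => ?_
  have h1 : (mult p.1 : ℝ) * mult p.2 = ww p := rfl
  rw [h1]
  unfold kw
  ring

/-- the sum in the definition of `formFactor` is the sum of `T ^ (i x (γ - γ')) w(γ - γ')` -/
theorem formFactor_eq {T : ℝ} (hT : 0 < T) (x : ℝ) : (formFactor T x : ℂ) =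
    (∑ᶠ p ∈ {p : ℂ × ℂ | p.1 ∈ zeros T ∧ p.2 ∈ zeros T}, (mult p.1 : ℂ) * mult p.2 *
      ((T : ℂ) ^ (Complex.I * x * (p.1.im - p.2.im)) * (4 / (4 + (p.1.im - p.2.im) ^ 2)))) / X T := by
  have h : zeros T = ↑(ZT T) := zeros_eq T
  have e : {p : ℂ × ℂ | p.1 ∈ zeros T ∧ p.2 ∈ zeros T} = ↑(SS T) := by
    rw [h]
    ext p
    unfold SS
    simp
  unfold formFactor
  rw [e, finsum_mem_coe_finset, finsum_mem_coe_finset]
  push_cast
  congr 1
  -- the imaginary parts cancel
  have hT0 : (T : ℂ) ≠ 0 := by exact_mod_cast hT.ne'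
  have e1 : ∀ p : ℂ × ℂ, (T : ℂ) ^ (Complex.I * x * (p.1.im - p.2.im)) =
      Complex.cos (x * Real.log T * (p.1.im - p.2.im)) +
        Complex.sin (x * Real.log T * (p.1.im - p.2.im)) * Complex.I := by
    intro p
    rw [Complex.cpow_def_of_ne_zero hT0, ← Complex.ofReal_log hT.le, ← Complex.exp_mul_I]
    congr 1
    ring
  have e2 : ∑ p ∈ SS T, (mult p.1 : ℂ) * mult p.2 *
      (Complex.sin (x * Real.log T * (p.1.im - p.2.im)) * (4 / (4 + (p.1.im - p.2.im) ^ 2))) = 0 := by
    set f : ℂ × ℂ → ℂ := fun p => (mult p.1 : ℂ) * mult p.2 *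
      (Complex.sin (x * Real.log T * (p.1.im - p.2.im)) * (4 / (4 + (p.1.im - p.2.im) ^ 2)))
      with hf
    have h1 : ∑ p ∈ SS T, f p = ∑ p ∈ SS T, f (p.2, p.1) := by
      apply Finset.sum_nbij' (fun p => (p.2, p.1)) (fun p => (p.2, p.1))
      · intro p hp
        unfold SS at hp ⊢
        rw [Finset.mem_product] at hp ⊢
        exact ⟨hp.2, hp.1⟩
      · intro p hp
        unfold SS at hp ⊢
        rw [Finset.mem_product] at hp ⊢
        exact ⟨hp.2, hp.1⟩
      · intro p _; rfl
      · intro p _; rfl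
      · intro p _; rfl
    have h2 : ∀ p : ℂ × ℂ, f (p.2, p.1) = -f p := by
      intro p
      simp only [hf]
      have h3 : (x : ℂ) * Real.log T * (p.2.im - p.1.im) =
        -((x : ℂ) * Real.log T * (p.1.im - p.2.im)) := by ring
      have h4 : ((p.2.im : ℂ) - p.1.im) ^ 2 = ((p.1.im : ℂ) - p.2.im) ^ 2 := by ring
      rw [h3, h4, Complex.sin_neg]
      ring
    simp_rw [h2] at h1
    rw [Finset.sum_neg_distrib] at h1
    have h5 : ∑ p ∈ SS T, f p = 0 := by linear_combination h1 / 2
    exact h5
  have e3 : ∑ p ∈ SS T, (mult p.1 : ℂ) * mult p.2 *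
      ((T : ℂ) ^ (Complex.I * x * (p.1.im - p.2.im)) * (4 / (4 + (p.1.im - p.2.im) ^ 2))) =
      (∑ p ∈ SS T, (mult p.1 : ℂ) * mult p.2 *
        (Complex.cos (x * Real.log T * (p.1.im - p.2.im)) * (4 / (4 + (p.1.im - p.2.im) ^ 2)))) +
      (∑ p ∈ SS T, (mult p.1 : ℂ) * mult p.2 *
      (Complex.sin (x * Real.log T * (p.1.im - p.2.im)) * (4 / (4 + (p.1.im - p.2.im) ^ 2)))) *
        Complex.I := by
    rw [Finset.sum_mul, ← Finset.sum_add_distrib]
    refine Finset.sum_congr rfl fun p _ => ?_
    rw [e1]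
    ring
  rw [e3, e2, zero_mul, add_zero]

/-- **An upper bound for the mean of the form factor implies the pair correlation conjecture.** -/
theorem result (l : Filter ℝ) (hl : l ≤ atTop) :
    List.TFAE [
      ∀ α β : ℝ, 0 < α → α < β →
        Asymptotics.IsEquivalent l (fun T => (N T α β : ℝ)) (fun T => X T * ∫ u in α..β, F u),
      ∀ a b : ℝ, 0 < a → a < b →
        Tendsto (fun T => ∫ x in a..b, formFactor T x) l (𝓝 (∫ x in a..b, min x 1)),
      ∀ a b : ℝ, 1 / 3 ≤ a → a < b → ∀ ε : ℝ, 0 < ε →
        ∀ᶠ T in l, ∫ x in a..b, formFactor T x ≤ (∫ x in a..b, min x 1) + ε] := by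
  have hI : ∀ a b : ℝ, ∫ u in a..b, F u = II a b := II_eq
  have hX : X = XX := rfl
  simp_rw [hI, form_eq, hX]
  have e1 : (∀ α β : ℝ, 0 < α → α < β →
      Asymptotics.IsEquivalent l (fun T => (N T α β : ℝ)) (fun T => XX T * II α β)) ↔
      ∀ α β : ℝ, 0 < α → α < β → Tendsto (fun T => cw (SS T) (wn T) (xn T) α β) l (𝓝 (II α β)) := by
    refine forall_congr' fun α => forall_congr' fun β => forall_congr' fun hα =>
      forall_congr' fun hαβ => ?_
    have h1 := equiv_iff hl (II_pos hα.le hαβ) (fun T => (N T α β : ℝ))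
    refine h1.trans ?_
    apply tendsto_congr'
    filter_upwards [hl (eventually_ge_atTop 10)] with T hT
    exact N_cw hT hα
  rw [e1]
  tfae_have 1 → 2 := fun h a b ha hab => imp_form hl h a b ha hab
  tfae_have 2 → 3 := fun h a b ha hab ε hε => by
    filter_upwards [(h a b (by linarith) hab).eventually (gt_mem_nhds
      (show (∫ x in a..b, min x 1) < (∫ x in a..b, min x 1) + ε by linarith))] with T hT
    exact hT.le
  tfae_have 3 → 1 := fun h α β hα hαβ => upper_imp hl h α β hα hαβ
  tfae_finish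

end Pool.Agent.Results.MP_8958e8_nt.FormFactorUpperH29
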