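import Pool.Agent.E8helper72.PC.Conv
import Pool.Agent.E8helper72.PC.UpH

/-!
# One-sided and long-range forms of the pair correlation conjecture

No hypothesis is assumed.  Along the full limit `T → ∞`, and along every filter of heights tending
to infinity (for example every sequence `T_n → ∞`), the following are equivalent.

1. The pair correlation conjecture: `N(T; α, β) ~ X(T) ∫_α^β F` for all `0 < α < β`.
2. Its lower half: for all `0 < α < β` the number of pairs is at least the predicted number.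
3. Its upper half: for all `0 < α < β` the number of pairs is at most the predicted number.
4. The lower half for the windows `(0, β]` at the origin.
5. The upper half for the windows `[-β, β]` around the origin, all pairs (also those of a zero with
   itself) included; their predicted number is `X(T) (1 + 2 ∫_0^β F)`.
6. Almost all zeros are on the critical line and the lower half holds for all sufficiently distant
   windows: for some `A` for all `A < α < β`.
7. Almost all zeros are on the critical line and the upper half holds for all sufficiently distant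
   windows.

Here `X(T) = (T / 2π) log T` and `F(u) = 1 - (sin πu / πu)²`.

Idea of the proof.  The unconditional pair correlation theorem for the ordinates (starting files;
support in `(-2/3, 2/3)`) has, for a test function with `r` supported in `[-δ, δ]`, an error
`O(δ³ ‖r‖_∞ ω^θ)`, `ω` being the proportion of the zeros off the line.  Consider a limit `μ` of the
normalised pair measures along an ultrafilter, and the predicted measure `λ`.  The number of pairs
with equal ordinates is at least `1 + ω` times the number of zeros, because the zeros off the line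
come in pairs.  If `μ ≥ λ` near the origin (in the sense of distribution functions), a decreasing
bandlimited function dilated by `1 / δ` gives `ω ≤ C δ²`, so that `ω = 0`; then the pair
correlation theorem is exact for `μ` in the whole range, and a strictly decreasing bandlimited
function gives `μ = λ`.  If `ω = 0` and `μ - λ` has constant sign on `(A, ∞)`, the test functions
`(u / A)^{2n} f(u)`, `n → ∞`, show that `μ = λ` there, and all the even moments of `μ - λ` on
`(0, A]` vanish.

The upper half (form 3) says nothing about the number of pairs with equal ordinates, so that it has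
to be excluded that a deficit `κ = λ - μ` on `(0, ∞)` is compensated by coincidences of ordinates of
zeros off the line.  The error above only gives that `κ` is finite and compensates the coincidences
exactly, after which the form factor of the limit exceeds the predicted one by
`2 ∫ (1 - cos 2παu) dκ(u)`, which is of order `α²` at the origin.  This is excluded by a finer
analysis of the off-line zeros: their part of the form factor at `α` is `α⁴ G(α)` with `G` of bounded
integral (a zero at distance `y` from the line contributes the factor `cosh(α y log T) - 1`), so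
that with `r` of size `|α|⁻³` between `2^{-J}` and `1` the error stays bounded by
`C (c ∫ α² r + 1 + 1 / c)` for every `c > 0` while `∫ α² r` grows like `J`.
-/

open Filter Topology MeasureTheory Set

namespace Pool.Agent.Results.MP_8958e8_nt.OneSidedFormsH72

open Pool.Agent.E8helper72.PC

/-- the nontrivial zeros of zeta with ordinate in `[0, T]` -/
def zeros (T : ℝ) : Set ℂ :=
  {s : ℂ | riemannZeta s = 0 ∧ 0 < s.re ∧ s.re < 1 ∧ 0 ≤ s.im ∧ s.im ≤ T}

/-- the multiplicity of a zero -/
noncomputable def mult (s : ℂ) : ℕ := analyticOrderNatAt riemannZeta s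

/-- the number of ordered pairs of zeros in `zeros T`, counted with multiplicity, for which the
difference of the ordinates times `log T / 2π` lies in `I` -/
noncomputable def pairs (T : ℝ) (I : Set ℝ) : ℕ :=
  ∑ᶠ p ∈ {p : ℂ × ℂ | p.1 ∈ zeros T ∧ p.2 ∈ zeros T ∧
    (p.1.im - p.2.im) * Real.log T / (2 * Real.pi) ∈ I}, mult p.1 * mult p.2

/-- the counting function `N(T; α, β)` of the problem -/
noncomputable def N (T α β : ℝ) : ℕ := pairs T (Icc α β)

/-- `X(T) = (T / 2π) log T` -/
noncomputable def X (T : ℝ) : ℝ := T * Real.log T / (2 * Real.pi)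

/-- the pair correlation function -/
noncomputable def F (u : ℝ) : ℝ := 1 - (Real.sin (Real.pi * u) / (Real.pi * u)) ^ 2

/-- the number of zeros in `zeros T`, counted with multiplicity -/
noncomputable def total (T : ℝ) : ℕ := ∑ᶠ s ∈ zeros T, mult s

/-- the number of those off the critical line -/
noncomputable def off (T : ℝ) : ℕ := ∑ᶠ s ∈ {s : ℂ | s ∈ zeros T ∧ s.re ≠ 1 / 2}, mult s

/-- almost all zeros are on the critical line, along `l` -/
def AlmostAllCritical (l : Filter ℝ) : Prop :=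
  Tendsto (fun T => (off T : ℝ) / (total T : ℝ)) l (𝓝 0)

/-- the sets of zeros are finite -/
theorem zeros_finite (T : ℝ) : (zeros T).Finite := by
  have h : zeros T = ↑(ZT T) := zeros_eq T
  rw [h]
  exact Finset.finite_toSet _

lemma X_eq (T : ℝ) : X T = XX T := rfl

lemma N_cw {T α β : ℝ} (hT : 10 ≤ T) (hα : 0 < α) :
    (N T α β : ℝ) / XX T = cw (SS T) (wn T) (xn T) α β := by
  classical
  rw [cw_window hT hα]
  congr 1
  exact pairs_eq T (Icc α β)

lemma P_cw {T β : ℝ} (hT : 10 ≤ T) :
    (pairs T (Icc (-β) β) : ℝ) / XX T = 2 * cw (SS T) (wn T) (xn T) 0 β := by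
  classical
  rw [cw_zero hT]
  have h : (pairs T (Icc (-β) β) : ℝ) = ∑ p ∈ ZT T ×ˢ ZT T with ud T p ∈ Icc (-β) β, ww p :=
    pairs_eq T (Icc (-β) β)
  rw [h]
  have := XX_pos hT
  field_simp

lemma low_conv {l : Filter ℝ} (hl : l ≤ atTop) {α β c : ℝ} (hα : 0 < α) (hc : 0 < c) :
    (∀ ε : ℝ, 0 < ε → ∀ᶠ T in l, (1 - ε) * (X T * c) ≤ N T α β) ↔
    (∀ ε : ℝ, 0 < ε → ∀ᶠ T in l, c - ε ≤ cw (SS T) (wn T) (xn T) α β) := by
  rw [← show (fun T => XX T) = X from rfl, low_iff hl hc]
  refine forall_congr' fun ε => forall_congr' fun _ => ?_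
  apply eventually_congr
  filter_upwards [hl (eventually_ge_atTop 10)] with T hT
  rw [N_cw hT hα]

lemma up_conv {l : Filter ℝ} (hl : l ≤ atTop) {α β c : ℝ} (hα : 0 < α) (hc : 0 < c) :
    (∀ ε : ℝ, 0 < ε → ∀ᶠ T in l, (N T α β : ℝ) ≤ (1 + ε) * (X T * c)) ↔
    (∀ ε : ℝ, 0 < ε → ∀ᶠ T in l, cw (SS T) (wn T) (xn T) α β ≤ c + ε) := by
  rw [← show (fun T => XX T) = X from rfl, up_iff hl hc]
  refine forall_congr' fun ε => forall_congr' fun _ => ?_
  apply eventually_congr
  filter_upwards [hl (eventually_ge_atTop 10)] with T hT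
  rw [N_cw hT hα]

/-- **One-sided and long-range forms of the pair correlation conjecture.** -/
theorem result (l : Filter ℝ) (hl : l ≤ atTop) :
    List.TFAE [
      ∀ α β : ℝ, 0 < α → α < β →
        Asymptotics.IsEquivalent l (fun T => (N T α β : ℝ)) (fun T => X T * ∫ u in α..β, F u),
      ∀ α β : ℝ, 0 < α → α < β → ∀ ε : ℝ, 0 < ε →
        ∀ᶠ T in l, (1 - ε) * (X T * ∫ u in α..β, F u) ≤ N T α β,
      ∀ α β : ℝ, 0 < α → α < β → ∀ ε : ℝ, 0 < ε →
        ∀ᶠ T in l, (N T α β : ℝ) ≤ (1 + ε) * (X T * ∫ u in α..β, F u),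
      ∀ β : ℝ, 0 < β → ∀ ε : ℝ, 0 < ε → ∃ α : ℝ, 0 < α ∧ α < β ∧
        ∀ᶠ T in l, (1 - ε) * (X T * ∫ u in (0 : ℝ)..β, F u) ≤ N T α β,
      ∀ β : ℝ, 0 < β → ∀ ε : ℝ, 0 < ε →
        ∀ᶠ T in l, (pairs T (Icc (-β) β) : ℝ) ≤
          (1 + ε) * (X T * (1 + 2 * ∫ u in (0 : ℝ)..β, F u)),
      AlmostAllCritical l ∧ ∃ A : ℝ, ∀ α β : ℝ, A < α → α < β → ∀ ε : ℝ, 0 < ε →
        ∀ᶠ T in l, (1 - ε) * (X T * ∫ u in α..β, F u) ≤ N T α β,
      AlmostAllCritical l ∧ ∃ A : ℝ, ∀ α β : ℝ, A < α → α < β → ∀ ε : ℝ, 0 < ε →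
        ∀ᶠ T in l, (N T α β : ℝ) ≤ (1 + ε) * (X T * ∫ u in α..β, F u)] := by
  have hI : ∀ a b : ℝ, ∫ u in a..b, F u = II a b := II_eq
  simp_rw [hI]
  have hoff : AlmostAllCritical l ↔ Tendsto offp l (𝓝 0) := by
    unfold AlmostAllCritical
    have h1 : (fun T => (off T : ℝ) / (total T : ℝ)) = offp := by
      funext T
      have h2 : (off T : ℝ) = NF T := NF_eq T
      have h3 : (total T : ℝ) = NT T := NT_eq T
      rw [h2, h3]
      rfl
    rw [h1]
  have h := zeta_tfae l hl
  -- the seven translations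
  have e1 : (∀ α β : ℝ, 0 < α → α < β →
      Asymptotics.IsEquivalent l (fun T => (N T α β : ℝ)) (fun T => X T * II α β)) ↔
      ∀ α β : ℝ, 0 < α → α < β → Tendsto (fun T => cw (SS T) (wn T) (xn T) α β) l (𝓝 (II α β)) := by
    refine forall_congr' fun α => forall_congr' fun β => forall_congr' fun hα =>
      forall_congr' fun hαβ => ?_
    have h1 := equiv_iff hl (II_pos hα.le hαβ) (fun T => (N T α β : ℝ))
    refine h1.trans ?_
    apply tendsto_congr'
    filter_upwards [hl (eventually_ge_atTop 10)] with T hT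
    exact N_cw hT hα
  have e2 : (∀ α β : ℝ, 0 < α → α < β → ∀ ε : ℝ, 0 < ε →
      ∀ᶠ T in l, (1 - ε) * (X T * II α β) ≤ N T α β) ↔
      ∀ α β : ℝ, 0 < α → α < β → ∀ ε : ℝ, 0 < ε →
        ∀ᶠ T in l, II α β - ε ≤ cw (SS T) (wn T) (xn T) α β :=
    forall_congr' fun α => forall_congr' fun β => forall_congr' fun hα =>
      forall_congr' fun hαβ => low_conv hl hα (II_pos hα.le hαβ)
  have e3 : (∀ β : ℝ, 0 < β → ∀ ε : ℝ, 0 < ε → ∃ α : ℝ, 0 < α ∧ α < β ∧
      ∀ᶠ T in l, (1 - ε) * (X T * II 0 β) ≤ N T α β) ↔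
      ∀ β : ℝ, 0 < β → ∀ ε : ℝ, 0 < ε → ∃ α : ℝ, 0 < α ∧ α < β ∧
        ∀ᶠ T in l, II 0 β - ε ≤ cw (SS T) (wn T) (xn T) α β := by
    refine forall_congr' fun β => forall_congr' fun hβ => ?_
    have hc := II_pos le_rfl hβ
    constructor
    · intro h ε hε
      obtain ⟨α, h1, h2, h3⟩ := h (ε / II 0 β) (by positivity)
      refine ⟨α, h1, h2, ?_⟩
      filter_upwards [h3, hl (eventually_ge_atTop 10)] with T hT hT10
      rw [← N_cw hT10 h1, le_div_iff₀ (XX_pos hT10)]
      refine le_trans (le_of_eq ?_) hT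
      rw [X_eq]
      field_simp
    · intro h ε hε
      obtain ⟨α, h1, h2, h3⟩ := h (ε * II 0 β) (by positivity)
      refine ⟨α, h1, h2, ?_⟩
      filter_upwards [h3, hl (eventually_ge_atTop 10)] with T hT hT10
      rw [← N_cw hT10 h1, le_div_iff₀ (XX_pos hT10)] at hT
      refine le_trans (le_of_eq ?_) hT
      rw [X_eq]
      ring
  have e4 : (∀ β : ℝ, 0 < β → ∀ ε : ℝ, 0 < ε →
      ∀ᶠ T in l, (pairs T (Icc (-β) β) : ℝ) ≤ (1 + ε) * (X T * (1 + 2 * II 0 β))) ↔
      ∀ β : ℝ, 0 < β → ∀ ε : ℝ, 0 < ε →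
        ∀ᶠ T in l, cw (SS T) (wn T) (xn T) 0 β ≤ 1 / 2 + II 0 β + ε := by
    refine forall_congr' fun β => forall_congr' fun hβ => ?_
    have hc : 0 < 1 + 2 * II 0 β := by
      have := II_pos le_rfl hβ
      linarith
    have h1 := up_iff hl hc (fun T => (pairs T (Icc (-β) β) : ℝ))
    refine h1.trans ?_
    constructor
    · intro h ε hε
      filter_upwards [h (2 * ε) (by linarith), hl (eventually_ge_atTop 10)] with T hT hT10
      rw [P_cw hT10] at hT
      linarith
    · intro h ε hε
      filter_upwards [h (ε / 2) (by linarith), hl (eventually_ge_atTop 10)] with T hT hT10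
      rw [P_cw hT10]
      linarith
  have e5 : (AlmostAllCritical l ∧ ∃ A : ℝ, ∀ α β : ℝ, A < α → α < β → ∀ ε : ℝ, 0 < ε →
      ∀ᶠ T in l, (1 - ε) * (X T * II α β) ≤ N T α β) ↔
      (Tendsto offp l (𝓝 0) ∧ ∃ A : ℝ, ∀ α β : ℝ, A < α → α < β → ∀ ε : ℝ, 0 < ε →
        ∀ᶠ T in l, II α β - ε ≤ cw (SS T) (wn T) (xn T) α β) := by
    rw [hoff]
    apply and_congr Iff.rfl
    constructor
    · rintro ⟨A, h⟩
      refine ⟨max A 0, fun α β h1 h2 => ?_⟩
      have h3 : 0 < α := (le_max_right _ _).trans_lt h1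
      exact (low_conv hl h3 (II_pos h3.le h2)).1 (h α β ((le_max_left _ _).trans_lt h1) h2)
    · rintro ⟨A, h⟩
      refine ⟨max A 0, fun α β h1 h2 => ?_⟩
      have h3 : 0 < α := (le_max_right _ _).trans_lt h1
      exact (low_conv hl h3 (II_pos h3.le h2)).2 (h α β ((le_max_left _ _).trans_lt h1) h2)
  have e6 : (AlmostAllCritical l ∧ ∃ A : ℝ, ∀ α β : ℝ, A < α → α < β → ∀ ε : ℝ, 0 < ε →
      ∀ᶠ T in l, (N T α β : ℝ) ≤ (1 + ε) * (X T * II α β)) ↔
      (Tendsto offp l (𝓝 0) ∧ ∃ A : ℝ, ∀ α β : ℝ, A < α → α < β → ∀ ε : ℝ, 0 < ε →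
        ∀ᶠ T in l, cw (SS T) (wn T) (xn T) α β ≤ II α β + ε) := by
    rw [hoff]
    apply and_congr Iff.rfl
    constructor
    · rintro ⟨A, h⟩
      refine ⟨max A 0, fun α β h1 h2 => ?_⟩
      have h3 : 0 < α := (le_max_right _ _).trans_lt h1
      exact (up_conv hl h3 (II_pos h3.le h2)).1 (h α β ((le_max_left _ _).trans_lt h1) h2)
    · rintro ⟨A, h⟩
      refine ⟨max A 0, fun α β h1 h2 => ?_⟩
      have h3 : 0 < α := (le_max_right _ _).trans_lt h1
      exact (up_conv hl h3 (II_pos h3.le h2)).2 (h α β ((le_max_left _ _).trans_lt h1) h2)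
  have e7 : (∀ α β : ℝ, 0 < α → α < β → ∀ ε : ℝ, 0 < ε →
      ∀ᶠ T in l, (N T α β : ℝ) ≤ (1 + ε) * (X T * II α β)) ↔
      ∀ α β : ℝ, 0 < α → α < β → ∀ ε : ℝ, 0 < ε →
        ∀ᶠ T in l, cw (SS T) (wn T) (xn T) α β ≤ II α β + ε :=
    forall_congr' fun α => forall_congr' fun β => forall_congr' fun hα =>
      forall_congr' fun hαβ => up_conv hl hα (II_pos hα.le hαβ)
  rw [e1, e2, e7, e3, e4, e5, e6]
  have hup : (∀ α β : ℝ, 0 < α → α < β →
      Tendsto (fun T => cw (SS T) (wn T) (xn T) α β) l (𝓝 (II α β))) ↔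
      ∀ α β : ℝ, 0 < α → α < β → ∀ ε : ℝ, 0 < ε →
        ∀ᶠ T in l, cw (SS T) (wn T) (xn T) α β ≤ II α β + ε := by
    constructor
    · intro h α β hα hαβ ε hε
      filter_upwards [(h α β hα hαβ).eventually (gt_mem_nhds (show II α β < II α β + ε by linarith))]
        with T hT
      exact hT.le
    · exact fun h => zeta_up l hl h
  tfae_have 1 ↔ 2 := h.out 0 1
  tfae_have 1 ↔ 3 := hup
  tfae_have 1 ↔ 4 := h.out 0 2
  tfae_have 1 ↔ 5 := h.out 0 3
  tfae_have 1 ↔ 6 := h.out 0 4
  tfae_have 1 ↔ 7 := h.out 0 5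
  tfae_finish

end Pool.Agent.Results.MP_8958e8_nt.OneSidedFormsH72
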